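import Mathlib
import Pool.Agent.H48.HeisP

set_option autoImplicit false

namespace Pool.Agent.Results.MP_e0c8e7_al.No

/-- `H` has a normal subgroup of exponent dividing `m` with nilpotent quotient. -/
def EN (m : ℕ) (H : Type) [Group H] : Prop :=
  ∃ (K : Subgroup H) (_ : K.Normal), (∀ x ∈ K, x ^ m = 1) ∧ Group.IsNilpotent (H ⧸ K)

/-- Finite-by-nilpotent groups. -/
def FN (H : Type) [Group H] : Prop :=
  ∃ (N : Subgroup H) (_ : N.Normal), Finite N ∧ Group.IsNilpotent (H ⧸ N)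

/-- `H` has a normal subgroup of exponent dividing `m` with finite-by-nilpotent quotient. -/
def EFN (m : ℕ) (H : Type) [Group H] : Prop :=
  ∃ (K : Subgroup H) (_ : K.Normal), (∀ x ∈ K, x ^ m = 1) ∧ FN (H ⧸ K)

/-- Every infinite subset has distinct `x, y` with `⟨x, y⁻¹ x y⟩` in the class `EN m`. -/
def Star (m : ℕ) (G : Type) [Group G] : Prop :=
  ∀ S : Set G, S.Infinite → ∃ x ∈ S, ∃ y ∈ S, x ≠ y ∧ EN m (Subgroup.closure {x, y⁻¹ * x * y})

/-- Soluble-by-finite groups. -/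
def SolubleByFinite (G : Type) [Group G] : Prop :=
  ∃ N : Subgroup G, N.Normal ∧ N.FiniteIndex ∧ Group.IsSolvable N

open Pool.Agent.H48.HeisP
open scoped commutatorElement

theorem pos (x y : Hs) : EN 2 (Subgroup.closure {x, y⁻¹ * x * y}) := by
  obtain ⟨φ, h0, h1⟩ := per x.t
  obtain ⟨c, c1, c2⟩ := Ms_ex φ x.a (y⁻¹ * x * y).a
  obtain ⟨e, he⟩ := h1 c
  set H := Subgroup.closure {x, y⁻¹ * x * y} with hH
  have hz (n : ℤ) : φ (n • x.t) = 0 := by rw [map_zsmul, h0, smul_zero]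
  have h2 : ∀ g ∈ H, g.a ∈ Ms φ c ∧ ∃ n : ℤ, g.t = n • x.t := by
    intro g hg
    induction hg using Subgroup.closure_induction with
    | mem g hg =>
      rcases hg with rfl | rfl
      · exact ⟨c1, 1, by simp⟩
      · exact ⟨c2, 1, by simp⟩
    | one => exact ⟨zero_mem _, 0, by simp⟩
    | mul g h _ _ hg hh =>
      obtain ⟨h3, n, hn⟩ := hg
      obtain ⟨h4, n', hn'⟩ := hh
      exact ⟨add_mem h3 (Ms_mul (hn ▸ hz n) h4), n + n', by rw [mul_t, hn, hn', add_smul]⟩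
    | inv g _ hg =>
      obtain ⟨h3, n, hn⟩ := hg
      exact ⟨Ms_mul (by rw [map_neg, hn, hz, neg_zero]) h3, -n, by rw [inv_t, hn, neg_smul]⟩
  let T (j : ℕ) : Subgroup H :=
    { carrier := {g | g.1.t = 0 ∧ ∃ m ∈ Ms φ c, g.1.a = (1 + X x.t) ^ j * m}
      one_mem' := ⟨rfl, 0, zero_mem _, by simp⟩
      mul_mem' := by
        rintro g h ⟨h3, m, hm, e3⟩ ⟨h4, m', hm', e4⟩
        exact ⟨by simp [h3, h4], m + m', add_mem hm hm', by simp [h3, e3, e4, mul_add]⟩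
      inv_mem' := by
        rintro g ⟨h3, m, hm, e3⟩
        exact ⟨by simp [h3], m, hm, by simp [h3, e3]⟩ }
  have h3 : ∀ j, (⊤ : Subgroup H).lowerCentralSeries (j + 1) ≤ T j := by
    intro j
    induction j with
    | zero =>
      rw [Subgroup.lowerCentralSeries_succ, Subgroup.commutator_le]
      exact fun g _ h _ => ⟨comm_t g.1 h.1, _, (h2 _ (⁅g, h⁆ : H).2).1, by simp⟩
    | succ j ih =>
      rw [Subgroup.lowerCentralSeries_succ, Subgroup.commutator_le]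
      intro g hg h _
      obtain ⟨h4, m, hm, e4⟩ := ih hg
      obtain ⟨n, hn⟩ := (h2 _ h.2).2
      obtain ⟨m', hm', e5⟩ := Ms_div h0 n hm
      refine ⟨comm_t g.1 h.1, m', hm', (comm_a h4 h.1).trans ?_⟩
      rw [e4, hn, mul_left_comm, e5, pow_succ, mul_assoc]
  refine ⟨(⊤ : Subgroup H).lowerCentralSeries (2 ^ e + 1), inferInstance, fun g hg => ?_, ?_⟩
  · obtain ⟨h4, m, hm, e4⟩ := h3 _ hg
    refine Subtype.ext ((sq_eq h4).mpr ?_)
    have h5 := he m hm _ (h2 _ g.2).1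
    rw [frob, X_pow, add_mul, one_mul] at e4
    nth_rw 1 [e4]
    rw [map_add, LinearMap.add_apply, h5, two']
  · refine Subgroup.nilpotent_iff_lowerCentralSeries.mpr ⟨2 ^ e + 1, ?_⟩
    rw [← Subgroup.map_top_of_surjective _ (QuotientGroup.mk'_surjective _),
      ← Subgroup.map_lowerCentralSeries, Subgroup.map_eq_bot_iff, QuotientGroup.ker_mk']

/-- Iterated commutators. -/
noncomputable def w : ℕ → Hs
  | 0 => ⟨0, 1, 0⟩
  | j + 1 => ⁅w j, (⟨0, 0, (1, 0)⟩ : Hs)⁆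

theorem w_a (j : ℕ) : (w j).t = 0 ∧ (w j).a = (1 + X (1, 0)) ^ j := by
  induction j with
  | zero => exact ⟨rfl, by simp [w]⟩
  | succ j ih => exact ⟨comm_t _ _, by rw [w, comm_a ih.1, ih.2, pow_succ']⟩

theorem kappa (K : Subgroup Hs) [K.Normal] (h : FN (Hs ⧸ K)) :
    ∃ κ ∈ K, ∃ s s' : ℤ, s ≠ s' ∧ κ.t = 0 ∧ κ.a = X (s, 0) + X (s', 0) := by
  obtain ⟨N, hN, h1, h2⟩ := h
  obtain ⟨n, hn⟩ := Subgroup.nilpotent_iff_lowerCentralSeries.mp h2
  let π := (QuotientGroup.mk' N).comp (QuotientGroup.mk' K)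
  have h3 : ∀ j, π (w j) ∈ (⊤ : Subgroup ((Hs ⧸ K) ⧸ N)).lowerCentralSeries j := by
    intro j
    induction j with
    | zero => trivial
    | succ j ih =>
      rw [w, map_commutatorElement, Subgroup.lowerCentralSeries_succ]
      exact Subgroup.commutator_mem_commutator ih trivial
  have h4 : ∀ i, QuotientGroup.mk (w (2 ^ (n + i))) ∈ N := fun i => by
    have := Subgroup.lowerCentralSeries_antitone _ (Nat.lt_two_pow_self.le.trans
      (Nat.pow_le_pow_right two_pos (Nat.le_add_right n i))) (h3 (2 ^ (n + i)))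
    rw [hn, Subgroup.mem_bot] at this
    exact (QuotientGroup.eq_one_iff _).mp this
  obtain ⟨i, j, hij, e⟩ := Finite.exists_ne_map_eq_of_infinite fun i => (⟨_, h4 i⟩ : N)
  refine ⟨_, QuotientGroup.eq.mp (congrArg Subtype.val e), 2 ^ (n + i), 2 ^ (n + j),
    fun h => hij (by simpa using h), by simp [w_a], ?_⟩
  simp only [mul_a, inv_a, inv_t, w_a, frob, X_pow, neg_zero, X_zero, one_mul]
  simp only [Prod.smul_mk, nsmul_eq_mul, mul_one, mul_zero, Nat.cast_pow, Nat.cast_ofNat]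
  linear_combination two 1

theorem neg : ¬ EFN 2 Hs := by
  rintro ⟨K, hK, h1, h2⟩
  obtain ⟨κ, hκ, s, s', hs, ht, ha⟩ := kappa K h2
  set k := (2 * (s - s')).natAbs with hk
  set v : P := (2 ^ (k + 2) + s - s', 2 ^ (2 * k + 4)) with hv
  set κ' : Hs := ⟨0, 0, v⟩ * κ * (⟨0, 0, v⟩ : Hs)⁻¹ with hκ'
  have ht' : κ'.t = 0 := by simp [hκ', ht]
  have ha' : κ'.a = X v * κ.a := by simp [hκ']
  have e1 := (sq_eq ht).mp (h1 κ hκ)
  have e2 := (sq_eq ht').mp (h1 κ' (hK.conj_mem _ hκ _))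
  have e3 := (sq_eq (by simp [ht])).mp (h1 _ (K.mul_mem hκ (hK.conj_mem _ hκ ⟨0, 0, v⟩)))
  rw [← hκ', mul_a, ht, X_zero, one_mul] at e3
  simp only [map_add, LinearMap.add_apply, e1, e2, zero_add, add_zero] at e3
  rw [ha', ha] at e3
  simp only [mul_add, ← X_add, map_add, LinearMap.add_apply, β_X, hv, Prod.mk_add_mk,
    Prod.mk_sub_mk, add_zero, sub_zero, zero_sub, μ_neg, add_sub_cancel_right] at e3
  have e4 : μ (2 ^ (k + 2) + s - s' + s' - s, 2 ^ (2 * k + 4)) = 1 := (μ_pos _ _).mpr (by simp)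
  have e5 : μ (2 ^ (k + 2) + s - s' + s - s', 2 ^ (2 * k + 4)) = 1 := by
    linear_combination e3 - e4 - two' (μ (2 ^ (k + 2) + s - s', 2 ^ (2 * k + 4))) - two' 1
  have e6 := (μ_pos _ _).mp e5
  rw [show (2 ^ (k + 2) + s - s' + s - s' - 2 ^ (k + 2) : ℤ) = 2 * (s - s') by ring] at e6
  have e7 := Int.natAbs_le_of_dvd_ne_zero e6 (by omega)
  rw [Int.natAbs_pow, ← hk] at e7
  have : 3 * k + 6 < 2 ^ (3 * k + 6) := Nat.lt_two_pow_self
  simp only [Int.reduceAbs] at e7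
  omega

theorem result : ∃ (G : Type) (_ : Group G),
    Group.FG G ∧ SolubleByFinite G ∧ Star 2 G ∧ ¬ EFN 2 G := by
  refine ⟨Hs, inferInstance, inferInstance, ⟨⊤, inferInstance, inferInstance, inferInstance⟩,
    fun S hS => ?_, neg⟩
  obtain ⟨x, hx, y, hy, hxy⟩ := hS.nontrivial
  exact ⟨x, hx, y, hy, hxy, pos x y⟩

end Pool.Agent.Results.MP_e0c8e7_al.No
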